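import Pool.Agent.T2h11.WY.Stm

/-!
# Task WYA
-/

set_option autoImplicit false

namespace Pool.Agent.T2h11.WY.WYA

open Module Pool.Agent.N184.HK Pool.Agent.T2h11.WY

/-- There is an orthonormal basis. -/
theorem t_WYA : S_WYA := by
  intro K V _ _ _ _ _ _ q hs hn
  have : Invertible (2 : K) := invertibleOfNonzero two_ne_zero
  obtain ⟨v, hv⟩ := LinearMap.BilinForm.exists_orthogonal_basis (LinearMap.BilinForm.isSymm_iff.1 hs)
  have hne : ∀ i, q (v i) (v i) ≠ 0 := fun i =>
    LinearMap.BilinForm.iIsOrtho.not_isOrtho_basis_self_of_nondegenerate hv hn i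
  have hsq : ∀ i, ∃ z : K, z ^ 2 = q (v i) (v i) := fun i =>
    IsAlgClosed.exists_pow_nat_eq _ (by norm_num)
  choose z hz using hsq
  have hz0 : ∀ i, z i ≠ 0 := by
    intro i h
    apply hne i
    rw [← hz i, h]
    ring
  refine ⟨v.unitsSMul fun i => Units.mk0 (z i)⁻¹ (inv_ne_zero (hz0 i)), fun i j => ?_⟩
  rw [Basis.unitsSMul_apply, Basis.unitsSMul_apply, Units.smul_def, Units.smul_def, map_smul,
    map_smul, LinearMap.smul_apply, smul_eq_mul, smul_eq_mul, Units.val_mk0, Units.val_mk0]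
  split_ifs with h
  · subst h
    rw [← hz i]
    field_simp [hz0 i]
  · have : q (v i) (v j) = 0 := hv h
    rw [this]
    ring

end Pool.Agent.T2h11.WY.WYA
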