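import Pool.Agent.T2h11.WY.Stm

/-! # WYB: the Casimir operator is central -/

set_option autoImplicit false

namespace Pool.Agent.T2h11.WY.WYB

open Module Pool.Agent.N184.HK

variable {K V W : Type} [Field K] [AddCommGroup V] [Module K V] [AddCommGroup W] [Module K W]

theorem br_wedge {q : LinearMap.BilinForm K V} (hq : q.IsSymm) (A : sk q) (x y : V) :
    br A (wedge q hq x y) = wedge q hq (A.1 x) y + wedge q hq x (A.1 y) := by
  apply Subtype.ext
  apply LinearMap.ext
  intro z
  have h1 : ∀ u w, q (A.1 u) w = - q u (A.1 w) := fun u w => eq_neg_of_add_eq_zero_left (A.2 u w)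
  simp only [br, wedge, Submodule.coe_add, LinearMap.sub_apply, LinearMap.add_apply,
    Module.End.mul_apply, LinearMap.smulRight_apply, map_sub, map_smul, h1]
  module

theorem wedge_sum_left {q : LinearMap.BilinForm K V} (hq : q.IsSymm) {n : ℕ} (c : Fin n → K)
    (b : Fin n → V) (y : V) :
    wedge q hq (∑ k, c k • b k) y = ∑ k, c k • wedge q hq (b k) y := by
  apply Subtype.ext
  apply LinearMap.ext
  intro z
  simp only [wedge, Submodule.coe_sum, Submodule.coe_smul, LinearMap.sub_apply,
    LinearMap.smulRight_apply, map_sum, map_smul, LinearMap.sum_apply, LinearMap.smul_apply,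
    smul_sub, Finset.sum_sub_distrib, Finset.sum_smul, Finset.smul_sum, smul_eq_mul]
  congr 1
  · exact Finset.sum_congr rfl fun k _ => by rw [mul_smul]
  · exact Finset.sum_congr rfl fun k _ => smul_comm _ _ _

theorem wedge_sum_right {q : LinearMap.BilinForm K V} (hq : q.IsSymm) {n : ℕ} (c : Fin n → K)
    (b : Fin n → V) (x : V) :
    wedge q hq x (∑ k, c k • b k) = ∑ k, c k • wedge q hq x (b k) := by
  apply Subtype.ext
  apply LinearMap.ext
  intro z
  simp only [wedge, Submodule.coe_sum, Submodule.coe_smul, LinearMap.sub_apply,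
    LinearMap.smulRight_apply, map_sum, map_smul, LinearMap.sum_apply, LinearMap.smul_apply,
    smul_sub, Finset.sum_sub_distrib, Finset.sum_smul, Finset.smul_sum, smul_eq_mul]
  congr 1
  · exact Finset.sum_congr rfl fun k _ => smul_comm _ _ _
  · exact Finset.sum_congr rfl fun k _ => by rw [mul_smul]

theorem expand {q : LinearMap.BilinForm K V} {n : ℕ} (b : Basis (Fin n) K V) (hb : Ortho q b)
    (x : V) : x = ∑ k, q (b k) x • b k := by
  have h1 : ∀ k, q (b k) x = b.repr x k := by
    intro k
    conv_lhs => rw [← b.sum_repr x]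
    simp only [map_sum, map_smul, smul_eq_mul]
    rw [Finset.sum_eq_single k]
    · rw [hb k k, if_pos rfl, mul_one]
    · intro l _ hl
      rw [hb k l, if_neg (Ne.symm hl), mul_zero]
    · intro h
      exact absurd (Finset.mem_univ k) h
  simp only [h1]
  exact (b.sum_repr x).symm

theorem t_WYB : S_WYB := by
  intro K V W _ _ _ _ _ n q hq b hb ρ hρ A
  set E : Fin n → Fin n → Module.End K W := fun i j => ρ (wedge q hq (b i) (b j)) with hE
  set a : Fin n → Fin n → K := fun k i => q (b k) (A.1 (b i)) with ha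
  have ha2 : ∀ k i, a k i = - a i k := by
    intro k i
    have h1 := A.2 (b i) (b k)
    have h2 : q (A.1 (b i)) (b k) = q (b k) (A.1 (b i)) := hq.eq _ _
    rw [h2] at h1
    exact eq_neg_of_add_eq_zero_left h1
  have hbr : ∀ i j, ρ A * E i j - E i j * ρ A = ∑ k, a k i • E k j + ∑ k, a k j • E i k := by
    intro i j
    rw [hE]
    simp only
    rw [← hρ, br_wedge, map_add]
    conv_lhs =>
      rw [expand b hb (A.1 (b i)), expand b hb (A.1 (b j))]
    rw [wedge_sum_left, wedge_sum_right, map_sum, map_sum]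
    simp only [map_smul]
    rfl
  have hprod : ∀ i j, ρ A * (E i j * E i j) - E i j * E i j * ρ A =
      (∑ k, a k i • (E k j * E i j) + ∑ k, a k i • (E i j * E k j)) +
      (∑ k, a k j • (E i k * E i j) + ∑ k, a k j • (E i j * E i k)) := by
    intro i j
    have h1 : ρ A * (E i j * E i j) - E i j * E i j * ρ A =
        (ρ A * E i j - E i j * ρ A) * E i j + E i j * (ρ A * E i j - E i j * ρ A) := by
      noncomm_ring
    rw [h1, hbr]
    simp only [add_mul, mul_add, Finset.sum_mul, Finset.mul_sum, smul_mul_assoc, mul_smul_comm]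
    abel
  have hz1 : ∑ i, ∑ j, (∑ k, a k i • (E k j * E i j) + ∑ k, a k i • (E i j * E k j)) = 0 := by
    rw [Finset.sum_comm]
    apply Finset.sum_eq_zero
    intro j _
    rw [Finset.sum_add_distrib]
    have h2 : ∑ i, ∑ k, a k i • (E i j * E k j) = ∑ i, ∑ k, a i k • (E k j * E i j) :=
      Finset.sum_comm
    rw [h2, ← Finset.sum_add_distrib]
    apply Finset.sum_eq_zero
    intro i _
    rw [← Finset.sum_add_distrib]
    apply Finset.sum_eq_zero
    intro k _
    rw [← add_smul, ha2 k i, neg_add_cancel, zero_smul]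
  have hz2 : ∑ i, ∑ j, (∑ k, a k j • (E i k * E i j) + ∑ k, a k j • (E i j * E i k)) = 0 := by
    apply Finset.sum_eq_zero
    intro i _
    rw [Finset.sum_add_distrib]
    have h2 : ∑ j, ∑ k, a k j • (E i j * E i k) = ∑ j, ∑ k, a j k • (E i k * E i j) :=
      Finset.sum_comm
    rw [h2, ← Finset.sum_add_distrib]
    apply Finset.sum_eq_zero
    intro j _
    rw [← Finset.sum_add_distrib]
    apply Finset.sum_eq_zero
    intro k _
    rw [← add_smul, ha2 k j, neg_add_cancel, zero_smul]
  have hfin : ρ A * cas hq b ρ - cas hq b ρ * ρ A = 0 := by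
    have h1 : ρ A * cas hq b ρ - cas hq b ρ * ρ A =
        ∑ i, ∑ j, (ρ A * (E i j * E i j) - E i j * E i j * ρ A) := by
      unfold cas
      simp only [Finset.mul_sum, Finset.sum_mul, Finset.sum_sub_distrib]
      rfl
    rw [h1]
    simp only [hprod]
    have h3 : ∀ i : Fin n, ∑ j, ((∑ k, a k i • (E k j * E i j) + ∑ k, a k i • (E i j * E k j)) +
        (∑ k, a k j • (E i k * E i j) + ∑ k, a k j • (E i j * E i k))) =
        ∑ j, (∑ k, a k i • (E k j * E i j) + ∑ k, a k i • (E i j * E k j)) +
        ∑ j, (∑ k, a k j • (E i k * E i j) + ∑ k, a k j • (E i j * E i k)) := fun i =>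
      Finset.sum_add_distrib
    rw [Finset.sum_congr rfl fun i _ => h3 i, Finset.sum_add_distrib, hz1, hz2, add_zero]
  exact sub_eq_zero.1 hfin

end Pool.Agent.T2h11.WY.WYB
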