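import Pool.Agent.T2h11.WY.Stm
import Pool.Agent.N184.HK.P_SL2B

/-!
# WYC: if the Casimir operator is nilpotent, then the representation is zero
-/

set_option autoImplicit false
set_option linter.unusedSectionVars false

namespace Pool.Agent.T2h11.WY.WYC

open Module Pool.Agent.N184.HK

section tr

variable {K W : Type} [Field K] [CharZero K] [IsAlgClosed K] [AddCommGroup W] [Module K W] [FiniteDimensional K W]

open Module.End in
/-- the trace of the square of an operator with integral eigenvalues -/
theorem tr_sq (D : Module.End K W) (h : ∀ e : K, D.HasEigenvalue e → ∃ j : ℤ, e = (j : K)) :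
    ∃ m : ℕ, LinearMap.trace K W (D * D) = (m : K) ∧ (m = 0 → IsNilpotent D) := by
  classical
  have hint : DirectSum.IsInternal (fun μ : K => D.maxGenEigenspace μ) :=
    DirectSum.isInternal_submodule_of_iSupIndep_of_iSup_eq_top D.independent_maxGenEigenspace
      (iSup_maxGenEigenspace_eq_top D)
  have hfin : {μ : K | D.maxGenEigenspace μ ≠ ⊥}.Finite :=
    WellFoundedGT.finite_ne_bot_of_iSupIndep D.independent_maxGenEigenspace
  have hmaps : ∀ μ : K, Set.MapsTo D (D.maxGenEigenspace μ) (D.maxGenEigenspace μ) := fun μ =>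
    mapsTo_maxGenEigenspace_of_comm (Commute.refl D) μ
  have hmaps2 : ∀ μ : K, Set.MapsTo (D * D) (D.maxGenEigenspace μ) (D.maxGenEigenspace μ) := fun μ =>
    (hmaps μ).comp (hmaps μ)
  have htr := LinearMap.trace_eq_sum_trace_restrict' hint hfin hmaps2
  have hone : ∀ μ : K, LinearMap.trace K (D.maxGenEigenspace μ) ((D * D).restrict (hmaps2 μ)) =
      μ * (μ * (finrank K (D.maxGenEigenspace μ) : K)) := by
    intro μ
    have hn : IsNilpotent (D.restrict (hmaps μ) - algebraMap K _ μ) := by
      have h0 := isNilpotent_restrict_maxGenEigenspace_sub_algebraMap D μ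
      have e0 : D.restrict (hmaps μ) - algebraMap K _ μ = (D - algebraMap K (Module.End K W) μ).restrict
          (mapsTo_maxGenEigenspace_of_comm (Algebra.mul_sub_algebraMap_commutes D μ) μ) := by
        ext x
        rfl
      rw [e0]
      exact h0
    have h1 := LinearMap.trace_comp_eq_mul_of_commute_of_isNilpotent (f := D.restrict (hmaps μ)) μ
      (Commute.refl _) hn
    have h2 := LinearMap.trace_comp_eq_mul_of_commute_of_isNilpotent (f := (1 : Module.End K (D.maxGenEigenspace μ)))
      (g := D.restrict (hmaps μ)) μ (Commute.one_left _) hn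
    have e1 : (D * D).restrict (hmaps2 μ) = D.restrict (hmaps μ) ∘ₗ D.restrict (hmaps μ) := by
      ext x
      rfl
    have e2 : (1 : Module.End K (D.maxGenEigenspace μ)) ∘ₗ D.restrict (hmaps μ) = D.restrict (hmaps μ) := rfl
    rw [e2, LinearMap.trace_one] at h2
    rw [e1, h1, h2]
  have hj : ∀ μ ∈ hfin.toFinset, ∃ j : ℤ, μ = (j : K) := by
    intro μ hμ
    refine h μ ?_
    have h1 : D.HasUnifEigenvalue μ ⊤ := hfin.mem_toFinset.1 hμ
    exact HasUnifEigenvalue.lt (by simp) h1
  choose! j hj using hj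
  refine ⟨∑ μ ∈ hfin.toFinset, (j μ).natAbs * (j μ).natAbs * finrank K (D.maxGenEigenspace μ), ?_, ?_⟩
  · rw [htr]
    push_cast
    refine Finset.sum_congr rfl fun μ hμ => ?_
    rw [hone μ]
    have hs : (((j μ).natAbs : K)) * ((j μ).natAbs : K) = μ * μ := by
      have : (((j μ).natAbs : ℤ)) * ((j μ).natAbs : ℤ) = j μ * j μ := Int.natAbs_mul_self' (j μ)
      have h3 := congrArg (fun z : ℤ => (z : K)) this
      push_cast at h3
      rw [Nat.cast_natAbs, h3, ← hj μ hμ]
    rw [hs, mul_assoc]
  · intro h0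
    rw [Finset.sum_eq_zero_iff] at h0
    have hzero : ∀ μ ∈ hfin.toFinset, μ = 0 := by
      intro μ hμ
      have h1 := h0 μ hμ
      have hpos : 0 < finrank K (D.maxGenEigenspace μ) :=
        Module.finrank_pos_iff.2 (Submodule.nontrivial_iff_ne_bot.2 (hfin.mem_toFinset.1 hμ))
      rcases Nat.mul_eq_zero.1 h1 with h2 | h2
      · have h3 : (j μ).natAbs = 0 := by
          rcases Nat.mul_eq_zero.1 h2 with h | h <;> exact h
        rw [hj μ hμ, Int.natAbs_eq_zero.1 h3, Int.cast_zero]
      · omega
    have htop : D.maxGenEigenspace 0 = ⊤ := by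
      rw [eq_top_iff, ← iSup_maxGenEigenspace_eq_top D]
      refine iSup_le fun μ => ?_
      by_cases hμ : D.maxGenEigenspace μ = ⊥
      · rw [hμ]; exact bot_le
      · rw [hzero μ (hfin.mem_toFinset.2 hμ)]
    refine ⟨finrank K W, ?_⟩
    ext x
    have hx : x ∈ D.maxGenEigenspace 0 := htop ▸ Submodule.mem_top
    rw [maxGenEigenspace_eq_genEigenspace_finrank, mem_genEigenspace_nat, zero_smul, sub_zero] at hx
    exact hx

/-- a nilpotent `D` with `[D, X] = 2 X` -/
theorem zero_of_nil {D X : Module.End K W} (hD : IsNilpotent D) (h : D * X - X * D = (2 : K) • X) : X = 0 := by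
  obtain ⟨m, hm⟩ := hD
  have h1 : SemiconjBy X (D + (2 : K) • 1) D := by
    show X * (D + (2 : K) • 1) = D * X
    rw [mul_add, mul_smul_comm, mul_one, ← h]
    abel
  have h2 := h1.pow_right m
  have h3 : X * (D + (2 : K) • 1) ^ m = 0 := by
    rw [h2.eq, hm, zero_mul]
  have hu : IsUnit (D + (2 : K) • (1 : Module.End K W)) := by
    refine IsNilpotent.isUnit_add_right_of_commute ⟨m, hm⟩ ?_ ?_
    · rw [← Algebra.algebraMap_eq_smul_one]
      exact (IsUnit.mk0 (2 : K) two_ne_zero).map (algebraMap K (Module.End K W))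
    · rw [← Algebra.algebraMap_eq_smul_one]
      exact Algebra.commute_algebraMap_right _ _
  exact ((hu.pow m).mul_left_eq_zero).1 h3

end tr

section rep

variable {K V W : Type} [Field K] [CharZero K] [IsAlgClosed K] [AddCommGroup V] [Module K V] [AddCommGroup W]
  [Module K W] [FiniteDimensional K W] {n : ℕ} {q : LinearMap.BilinForm K V} (hq : q.IsSymm)
  (b : Basis (Fin n) K V) (hb : Ortho q b)

include hb in
theorem coord (v : V) (j : Fin n) : q (b j) v = b.repr v j := by
  conv_lhs => rw [← b.sum_repr v]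
  rw [map_sum]
  simp only [map_smul, smul_eq_mul]
  rw [Finset.sum_eq_single j]
  · rw [hb j j, if_pos rfl, mul_one]
  · intro i _ hi
    rw [hb j i, if_neg (Ne.symm hi), mul_zero]
  · intro h; exact absurd (Finset.mem_univ j) h

include hb in
theorem exp (v : V) : v = ∑ j, q (b j) v • b j := by
  conv_lhs => rw [← b.sum_repr v]
  exact Finset.sum_congr rfl fun j _ => by rw [coord b hb]

theorem wedge_apply (x y z : V) : (wedge q hq x y).1 z = q x z • y - q y z • x := rfl

include hb in
theorem br_wedge {i j k : Fin n} (hij : i ≠ j) (hjk : j ≠ k) (hki : k ≠ i) :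
    br (wedge q hq (b i) (b j)) (wedge q hq (b j) (b k)) = wedge q hq (b k) (b i) := by
  refine Subtype.ext (LinearMap.ext fun z => ?_)
  show (wedge q hq (b i) (b j)).1 ((wedge q hq (b j) (b k)).1 z) -
    (wedge q hq (b j) (b k)).1 ((wedge q hq (b i) (b j)).1 z) = (wedge q hq (b k) (b i)).1 z
  simp only [wedge_apply, map_sub, map_smul]
  simp only [hb i j, hb j k, hb j j, hb i k, hb j i, hb k j, hb k i, if_neg hij, if_neg hjk, if_neg hki,
    if_neg hij.symm, if_neg hjk.symm, if_neg hki.symm, if_true]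
  module

theorem wedge_self (x : V) : wedge q hq x x = 0 := by
  refine Subtype.ext (LinearMap.ext fun z => ?_)
  rw [wedge_apply, sub_self]
  rfl

include hb in
theorem two_smul_eq (A : sk q) : (2 : K) • A = ∑ i, ∑ j, q (b j) (A.1 (b i)) • wedge q hq (b i) (b j) := by
  refine Subtype.ext (b.ext fun k => ?_)
  have e : (∑ i, ∑ j, q (b j) (A.1 (b i)) • wedge q hq (b i) (b j)).1 =
      ∑ i, ∑ j, q (b j) (A.1 (b i)) • (wedge q hq (b i) (b j)).1 := by
    have := map_sum (sk q).subtype (fun i => ∑ j, q (b j) (A.1 (b i)) • wedge q hq (b i) (b j)) Finset.univ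
    simp only [Submodule.subtype_apply] at this
    rw [this]
    refine Finset.sum_congr rfl fun i _ => ?_
    have := map_sum (sk q).subtype (fun j => q (b j) (A.1 (b i)) • wedge q hq (b i) (b j)) Finset.univ
    simp only [Submodule.subtype_apply] at this
    rw [this]
    rfl
  rw [e]
  simp only [LinearMap.sum_apply, LinearMap.smul_apply, wedge_apply]
  have e1 : ∀ i : Fin n, ∑ j, q (b j) (A.1 (b i)) • (q (b i) (b k) • b j - q (b j) (b k) • b i) =
      (if i = k then A.1 (b i) else 0) - q (b k) (A.1 (b i)) • b i := by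
    intro i
    simp only [smul_sub, Finset.sum_sub_distrib]
    congr 1
    · rw [hb i k]
      split_ifs with h
      · simp only [one_smul]
        exact (exp b hb _).symm
      · simp
    · rw [Finset.sum_eq_single k]
      · rw [hb k k, if_pos rfl, one_smul]
      · intro j _ hj
        rw [hb j k, if_neg hj, zero_smul, smul_zero]
      · intro h; exact absurd (Finset.mem_univ k) h
  rw [Finset.sum_congr rfl fun i _ => e1 i, Finset.sum_sub_distrib, Finset.sum_ite_eq' Finset.univ k,
    if_pos (Finset.mem_univ k)]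
  have e2 : ∑ i, q (b k) (A.1 (b i)) • b i = -(A.1 (b k)) := by
    rw [exp b hb (-(A.1 (b k)))]
    refine Finset.sum_congr rfl fun i _ => ?_
    congr 1
    have h1 := A.2 (b i) (b k)
    have h2 : q (A.1 (b i)) (b k) = q (b k) (A.1 (b i)) := hq.eq _ _
    rw [map_neg, ← h2]
    linear_combination h1
  rw [e2]
  show (2 : K) • A.1 (b k) = _
  rw [sub_neg_eq_add, two_smul]

end rep

theorem t_WYC : S_WYC := by
  intro K V W _ _ _ _ _ _ _ _ n q hq b hb hn ρ hρ hnil
  obtain ⟨I, hI⟩ := IsAlgClosed.exists_pow_nat_eq (-1 : K) (n := 2) (by norm_num)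
  have hI0 : I ≠ 0 := by
    intro h; rw [h] at hI; norm_num at hI
  have hlin : ∀ {i j k : Fin n}, i ≠ j → j ≠ k → k ≠ i →
      ρ (wedge q hq (b i) (b j)) * ρ (wedge q hq (b j) (b k)) - ρ (wedge q hq (b j) (b k)) * ρ (wedge q hq (b i) (b j)) =
        ρ (wedge q hq (b k) (b i)) := by
    intro i j k h1 h2 h3
    rw [← hρ, br_wedge hq b hb h1 h2 h3]
  have hthird : ∀ i j : Fin n, ∃ k : Fin n, k ≠ i ∧ k ≠ j := by
    intro i j
    by_contra hcon
    push Not at hcon
    have : (Finset.univ : Finset (Fin n)) ⊆ {i, j} := by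
      intro k _
      rw [Finset.mem_insert, Finset.mem_singleton]
      by_cases h : k = i
      · exact Or.inl h
      · exact Or.inr (hcon k h)
    have h1 := Finset.card_le_card this
    have h2 := Finset.card_le_two (a := i) (b := j)
    rw [Finset.card_univ, Fintype.card_fin] at h1
    omega
  -- the triples
  have htriple : ∀ i j : Fin n, i ≠ j → ∃ X N : Module.End K W,
      ((2 * I) • ρ (wedge q hq (b i) (b j))) * X - X * ((2 * I) • ρ (wedge q hq (b i) (b j))) = (2 : K) • X ∧
      ((2 * I) • ρ (wedge q hq (b i) (b j))) * N - N * ((2 * I) • ρ (wedge q hq (b i) (b j))) = -(2 : K) • N ∧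
      X * N - N * X = (2 * I) • ρ (wedge q hq (b i) (b j)) := by
    intro i j hij
    obtain ⟨k, hki, hkj⟩ := hthird i j
    have h1 := hlin hij hkj.symm hki
    have h2 := hlin hkj.symm hki hij
    have h3 := hlin hki hij hkj.symm
    set α := ρ (wedge q hq (b i) (b j))
    set β := ρ (wedge q hq (b j) (b k))
    set γ := ρ (wedge q hq (b k) (b i))
    refine ⟨-(β + I • γ), β - I • γ, ?_, ?_, ?_⟩
    · have e : ((2 * I) • α) * (-(β + I • γ)) - (-(β + I • γ)) * ((2 * I) • α) =
          -((2 * I) • (α * β - β * α)) + (2 * I ^ 2) • (γ * α - α * γ) := by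
        simp only [mul_neg, neg_mul, mul_add, add_mul, smul_mul_assoc, mul_smul_comm, smul_smul, smul_sub]
        module
      rw [e, h1, h3, hI]
      module
    · have e : ((2 * I) • α) * (β - I • γ) - (β - I • γ) * ((2 * I) • α) =
          ((2 * I) • (α * β - β * α)) + (2 * I ^ 2) • (γ * α - α * γ) := by
        simp only [mul_sub, sub_mul, smul_mul_assoc, mul_smul_comm, smul_smul, smul_sub]
        module
      rw [e, h1, h3, hI]
      module
    · have e : (-(β + I • γ)) * (β - I • γ) - (β - I • γ) * (-(β + I • γ)) = (2 * I) • (β * γ - γ * β) := by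
        simp only [mul_sub, sub_mul, mul_neg, neg_mul, mul_add, add_mul, smul_mul_assoc, mul_smul_comm, smul_smul,
          smul_sub]
        module
      rw [e, h2]
  have hint : ∀ i j : Fin n, ∃ m : ℕ, LinearMap.trace K W (ρ (wedge q hq (b i) (b j)) * ρ (wedge q hq (b i) (b j))) =
      -(1 / 4) * (m : K) ∧ (m = 0 → IsNilpotent ((2 * I) • ρ (wedge q hq (b i) (b j)))) := by
    intro i j
    by_cases hij : i = j
    · subst hij
      refine ⟨0, ?_, fun _ => ?_⟩
      · rw [wedge_self, map_zero, mul_zero, map_zero, Nat.cast_zero, mul_zero]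
      · rw [wedge_self, map_zero, smul_zero]
        exact IsNilpotent.zero
    · obtain ⟨X, N, h1, h2, h3⟩ := htriple i j hij
      have h4 := (t_sl2b K W X _ N h1 h2 h3).1
      obtain ⟨m, hm1, hm2⟩ := tr_sq _ h4
      refine ⟨m, ?_, hm2⟩
      rw [← hm1]
      simp only [smul_mul_assoc, mul_smul_comm, smul_smul, map_smul, smul_eq_mul]
      have : (2 * I * (2 * I) : K) = -4 := by linear_combination 4 * hI
      rw [← mul_assoc, mul_assoc, this]
      ring
  choose m hm1 hm2 using hint
  have htr : LinearMap.trace K W (cas hq b ρ) = 0 :=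
    (LinearMap.isNilpotent_trace_of_isNilpotent hnil).eq_zero
  have hsum : ∑ i, ∑ j, m i j = 0 := by
    have h1 : LinearMap.trace K W (cas hq b ρ) = -(1 / 4) * ((∑ i, ∑ j, m i j : ℕ) : K) := by
      unfold cas
      rw [map_sum]
      push_cast
      rw [Finset.mul_sum]
      refine Finset.sum_congr rfl fun i _ => ?_
      rw [map_sum, Finset.mul_sum]
      exact Finset.sum_congr rfl fun j _ => hm1 i j
    rw [htr] at h1
    have h2 : ((∑ i, ∑ j, m i j : ℕ) : K) = 0 := by linear_combination 4 * h1
    exact_mod_cast h2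
  have hm0 : ∀ i j, m i j = 0 := by
    intro i j
    have h1 := (Finset.sum_eq_zero_iff.1 hsum) i (Finset.mem_univ i)
    exact (Finset.sum_eq_zero_iff.1 h1) j (Finset.mem_univ j)
  have hE : ∀ i j : Fin n, ρ (wedge q hq (b i) (b j)) = 0 := by
    intro i j
    by_cases hij : i = j
    · subst hij
      rw [wedge_self, map_zero]
    · obtain ⟨X, N, h1, h2, h3⟩ := htriple i j hij
      have hX : X = 0 := zero_of_nil (hm2 i j (hm0 i j)) h1
      rw [hX, zero_mul, mul_zero, sub_zero] at h3
      exact (smul_eq_zero.1 h3.symm).resolve_left (mul_ne_zero two_ne_zero hI0)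
  ext1 A
  have h2 := congrArg ρ (two_smul_eq hq b hb A)
  rw [map_smul, map_sum] at h2
  have h3 : (2 : K) • ρ A = 0 := by
    rw [h2]
    refine Finset.sum_eq_zero fun i _ => ?_
    rw [map_sum]
    refine Finset.sum_eq_zero fun j _ => ?_
    rw [map_smul, hE, smul_zero]
  exact (smul_eq_zero.1 h3).resolve_left two_ne_zero

end Pool.Agent.T2h11.WY.WYC
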