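import Pool.Agent.T2h11.WY.Stm

/-!
# Task WYD
-/

set_option autoImplicit false

namespace Pool.Agent.T2h11.WY.WYD

open Module Pool.Agent.N184.HK Pool.Agent.T2h11.WY

section

variable {K V W : Type} [Field K] [AddCommGroup V] [Module K V] [AddCommGroup W] [Module K W]
  {q : LinearMap.BilinForm K V}

/-- The restriction of a representation to a stable subspace. -/
noncomputable def res (ρ : sk q →ₗ[K] Module.End K W) (N : Submodule K W)
    (h : ∀ A, ∀ x ∈ N, ρ A x ∈ N) : sk q →ₗ[K] Module.End K N where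
  toFun A := (ρ A).restrict (h A)
  map_add' A B := by
    ext x
    simp
  map_smul' r A := by
    ext x
    simp

lemma res_apply (ρ : sk q →ₗ[K] Module.End K W) (N : Submodule K W)
    (h : ∀ A, ∀ x ∈ N, ρ A x ∈ N) (A : sk q) (x : N) : ((res ρ N h A x : N) : W) = ρ A x := rfl

lemma res_isRp {ρ : sk q →ₗ[K] Module.End K W} (hρ : IsRp ρ) (N : Submodule K W)
    (h : ∀ A, ∀ x ∈ N, ρ A x ∈ N) : IsRp (res ρ N h) := by
  intro A B
  ext x
  have := LinearMap.congr_fun (hρ A B) (x : W)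
  simpa [res_apply] using this

lemma res_cas {n : ℕ} (hq : q.IsSymm) (b : Basis (Fin n) K V) (ρ : sk q →ₗ[K] Module.End K W)
    (N : Submodule K W) (h : ∀ A, ∀ x ∈ N, ρ A x ∈ N) (x : N) :
    ((cas hq b (res ρ N h) x : N) : W) = cas hq b ρ x := by
  simp [cas, res_apply, LinearMap.sum_apply]

lemma res_cas_pow {n : ℕ} (hq : q.IsSymm) (b : Basis (Fin n) K V)
    (ρ : sk q →ₗ[K] Module.End K W) (N : Submodule K W) (h : ∀ A, ∀ x ∈ N, ρ A x ∈ N) (m : ℕ)
    (x : N) : (((cas hq b (res ρ N h) ^ m) x : N) : W) = (cas hq b ρ ^ m) x := by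
  induction m generalizing x with
  | zero => simp
  | succ m ih => rw [pow_succ, Module.End.mul_apply, ih, res_cas, pow_succ, Module.End.mul_apply]

/-- The adjoint representation. -/
noncomputable def ad (ρ : sk q →ₗ[K] Module.End K W) :
    sk q →ₗ[K] Module.End K (Module.End K W) :=
  (LinearMap.mul K (Module.End K W) - (LinearMap.mul K (Module.End K W)).flip).comp ρ

lemma ad_apply (ρ : sk q →ₗ[K] Module.End K W) (A : sk q) (f : Module.End K W) :
    ad ρ A f = ρ A * f - f * ρ A := rfl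

lemma ad_isRp {ρ : sk q →ₗ[K] Module.End K W} (hρ : IsRp ρ) : IsRp (ad ρ) := by
  intro A B
  refine LinearMap.ext fun f => ?_
  rw [ad_apply, hρ, LinearMap.sub_apply, Module.End.mul_apply, Module.End.mul_apply, ad_apply,
    ad_apply, ad_apply, ad_apply]
  noncomm_ring

/-- The endomorphisms with image in `U` which are scalar on `U`. -/
def ES (U : Submodule K W) : Submodule K (Module.End K W) where
  carrier := {f | (∀ x, f x ∈ U) ∧ ∃ s : K, ∀ x ∈ U, f x = s • x}
  add_mem' := by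
    rintro f g ⟨hf, s, hs⟩ ⟨hg, t, ht⟩
    refine ⟨fun x => U.add_mem (hf x) (hg x), s + t, fun x hx => ?_⟩
    rw [LinearMap.add_apply, hs x hx, ht x hx, add_smul]
  zero_mem' := ⟨fun x => U.zero_mem, 0, fun x _ => by simp⟩
  smul_mem' := by
    rintro r f ⟨hf, s, hs⟩
    refine ⟨fun x => U.smul_mem r (hf x), r * s, fun x hx => ?_⟩
    rw [LinearMap.smul_apply, hs x hx, mul_smul]

/-- The endomorphisms with image in `U` which are zero on `U`. -/
def EZ (U : Submodule K W) : Submodule K (Module.End K W) where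
  carrier := {f | (∀ x, f x ∈ U) ∧ ∀ x ∈ U, f x = 0}
  add_mem' := by
    rintro f g ⟨hf, hs⟩ ⟨hg, ht⟩
    refine ⟨fun x => U.add_mem (hf x) (hg x), fun x hx => ?_⟩
    rw [LinearMap.add_apply, hs x hx, ht x hx, add_zero]
  zero_mem' := ⟨fun x => U.zero_mem, fun x _ => by simp⟩
  smul_mem' := by
    rintro r f ⟨hf, hs⟩
    refine ⟨fun x => U.smul_mem r (hf x), fun x hx => ?_⟩
    rw [LinearMap.smul_apply, hs x hx, smul_zero]

lemma EZ_le (U : Submodule K W) : EZ U ≤ ES U := fun _ hf =>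
  ⟨hf.1, 0, fun x hx => by rw [hf.2 x hx, zero_smul]⟩

lemma ad_mem {ρ : sk q →ₗ[K] Module.End K W} {U : Submodule K W} (hU : ∀ A, ∀ x ∈ U, ρ A x ∈ U)
    (A : sk q) {f : Module.End K W} (hf : f ∈ ES U) : ad ρ A f ∈ EZ U := by
  obtain ⟨h1, s, h2⟩ := hf
  refine ⟨fun x => ?_, fun x hx => ?_⟩
  · rw [ad_apply, LinearMap.sub_apply, Module.End.mul_apply, Module.End.mul_apply]
    exact U.sub_mem (hU A _ (h1 x)) (h1 _)
  · rw [ad_apply, LinearMap.sub_apply, Module.End.mul_apply, Module.End.mul_apply, h2 x hx,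
      h2 _ (hU A x hx), map_smul, sub_self]

lemma cas_mem {n : ℕ} (hq : q.IsSymm) (b : Basis (Fin n) K V) {ρ : sk q →ₗ[K] Module.End K W}
    {U : Submodule K W} (hU : ∀ A, ∀ x ∈ U, ρ A x ∈ U) {f : Module.End K W} (hf : f ∈ ES U) :
    cas hq b (ad ρ) f ∈ EZ U := by
  rw [cas, LinearMap.sum_apply]
  refine Submodule.sum_mem _ fun i _ => ?_
  rw [LinearMap.sum_apply]
  refine Submodule.sum_mem _ fun j _ => ?_
  rw [Module.End.mul_apply]
  exact ad_mem hU _ (EZ_le U (ad_mem hU _ hf))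

end

/-- Weyl's theorem. -/
theorem t_WYD (hA : S_WYA) (hB : S_WYB) (hC : S_WYC) : S_WYD := by
  intro K V W _ _ _ _ _ _ _ _ _ q hq hn h3 ρ hρ U hU
  obtain ⟨b, hb⟩ := hA K V q hq hn
  set c := cas hq b (ad ρ) with hc
  have hcE : ∀ f ∈ ES U, c f ∈ ES U := fun f hf => EZ_le U (cas_mem hq b hU hf)
  -- Fitting
  obtain ⟨m, hm, hm1⟩ := ((LinearMap.eventually_isCompl_ker_pow_range_pow
    (c.restrict hcE)).and (Filter.eventually_ge_atTop 1)).exists
  -- a projection on `U`
  obtain ⟨U', hU'⟩ := Submodule.exists_isCompl U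
  set f1 : Module.End K W := U.subtype.comp (U.projectionOnto U' hU') with hf1
  have hf1U : ∀ x ∈ U, f1 x = x := by
    intro x hx
    have := Submodule.projectionOnto_apply_left hU' ⟨x, hx⟩
    rw [hf1, LinearMap.comp_apply, this]
    rfl
  have hf1E : f1 ∈ ES U := ⟨fun x => by
    rw [hf1, LinearMap.comp_apply]
    exact (U.projectionOnto U' hU' x).2, 1, fun x hx => by rw [hf1U x hx, one_smul]⟩
  have hpow : ∀ (k : ℕ) (x : ES U), (((c.restrict hcE) ^ k) x : Module.End K W) = (c ^ k) x := by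
    intro k
    induction k with
    | zero => intro x; simp
    | succ k ih =>
      intro x
      rw [pow_succ, Module.End.mul_apply, ih, pow_succ, Module.End.mul_apply]
      rfl
  have htop : (⟨f1, hf1E⟩ : ES U) ∈ LinearMap.ker ((c.restrict hcE) ^ m) ⊔
      LinearMap.range ((c.restrict hcE) ^ m) := by
    rw [hm.sup_eq_top]
    trivial
  obtain ⟨f0, hf0, f2, ⟨g, hg⟩, hsum⟩ := Submodule.mem_sup.1 htop
  have hf0' : (c ^ m) (f0 : Module.End K W) = 0 := by
    rw [← hpow m f0, LinearMap.mem_ker.1 hf0]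
    rfl
  have hf2 : (f2 : Module.End K W) ∈ EZ U := by
    obtain ⟨k, rfl⟩ : ∃ k, m = k + 1 := ⟨m - 1, by omega⟩
    rw [← hg, pow_succ', Module.End.mul_apply]
    exact cas_mem hq b hU (((c.restrict hcE) ^ k) g).2
  -- the representation on the generalized kernel
  set E0 : Submodule K (Module.End K W) := ES U ⊓ LinearMap.ker (c ^ m) with hE0
  have hst : ∀ A, ∀ f ∈ E0, ad ρ A f ∈ E0 := by
    intro A f hf
    refine ⟨EZ_le U (ad_mem hU A hf.1), ?_⟩
    have h1 : Commute (ad ρ A) (c ^ m) := (hB K V (Module.End K W) _ q hq b hb (ad ρ)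
      (ad_isRp hρ) A).pow_right m
    have h2 : (c ^ m) (ad ρ A f) = ad ρ A ((c ^ m) f) := by
      rw [← Module.End.mul_apply, ← h1.eq, Module.End.mul_apply]
    rw [SetLike.mem_coe, LinearMap.mem_ker, h2, LinearMap.mem_ker.1 hf.2, map_zero]
  have hzero := hC K V E0 _ q hq b hb h3 (res (ad ρ) E0 hst) (res_isRp (ad_isRp hρ) E0 hst)
    ⟨m, LinearMap.ext fun x => Subtype.ext (by
      rw [res_cas_pow]
      exact LinearMap.mem_ker.1 x.2.2)⟩
  have hcomm : ∀ A, ρ A * (f0 : Module.End K W) = f0 * ρ A := by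
    intro A
    have h1 := congrArg Subtype.val (LinearMap.congr_fun (LinearMap.congr_fun hzero A)
      ⟨(f0 : Module.End K W), f0.2, hf0'⟩)
    rw [res_apply, ad_apply] at h1
    exact sub_eq_zero.1 h1
  have hf0e : (f0 : Module.End K W) = f1 - f2 := by
    have h1 := congrArg Subtype.val hsum
    rw [Submodule.coe_add] at h1
    exact eq_sub_of_add_eq h1
  have hf0U : ∀ x ∈ U, (f0 : Module.End K W) x = x := by
    intro x hx
    rw [hf0e, LinearMap.sub_apply, hf1U x hx, hf2.2 x hx, sub_zero]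
  have hf0r : ∀ x, (f0 : Module.End K W) x ∈ U := f0.2.1
  refine ⟨LinearMap.ker (f0 : Module.End K W), fun A x hx => ?_, ?_⟩
  · rw [LinearMap.mem_ker] at hx ⊢
    rw [← Module.End.mul_apply, ← hcomm, Module.End.mul_apply, hx, map_zero]
  · have h1 := LinearMap.isCompl_of_proj (f := (f0 : Module.End K W).codRestrict U hf0r)
      (fun x => Subtype.ext (hf0U x x.2))
    rwa [LinearMap.ker_codRestrict] at h1

end Pool.Agent.T2h11.WY.WYD
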