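import Pool.Agent.N184.HK.Stm

/-!
# Weyl's theorem for representations of `so(V, q)`: statements
-/

set_option autoImplicit false

namespace Pool.Agent.T2h11.WY

open Module Pool.Agent.N184.HK

section

variable {K V : Type} [Field K] [AddCommGroup V] [Module K V]

/-- The Lie algebra `so(V, q)`. -/
def sk (q : LinearMap.BilinForm K V) : Submodule K (Module.End K V) where
  carrier := {A | Skew q A}
  add_mem' {A B} hA hB x y := by
    have h1 := hA x y
    have h2 := hB x y
    simp only [LinearMap.add_apply, map_add, LinearMap.add_apply]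
    linear_combination h1 + h2
  zero_mem' x y := by simp
  smul_mem' r A hA x y := by
    have h1 := hA x y
    simp only [LinearMap.smul_apply, map_smul, LinearMap.smul_apply, smul_eq_mul]
    linear_combination r * h1

lemma skew_comm {q : LinearMap.BilinForm K V} {A B : Module.End K V} (hA : Skew q A)
    (hB : Skew q B) : Skew q (A * B - B * A) := by
  intro x y
  have h1 := hA (B x) y
  have h2 := hB x (A y)
  have h3 := hB (A x) y
  have h4 := hA x (B y)
  simp only [LinearMap.sub_apply, Module.End.mul_apply, map_sub, LinearMap.sub_apply]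
  linear_combination h1 - h2 - h3 + h4

/-- The bracket of `so(V, q)`. -/
def br {q : LinearMap.BilinForm K V} (A B : sk q) : sk q :=
  ⟨A.1 * B.1 - B.1 * A.1, skew_comm A.2 B.2⟩

/-- `x ∧ y`, as an element of `so(V, q)`. -/
noncomputable def wedge (q : LinearMap.BilinForm K V) (hq : q.IsSymm) (x y : V) : sk q :=
  ⟨(q x).smulRight y - (q y).smulRight x, fun z w => by
    have h : ∀ u v, q u v = q v u := fun u v => hq.eq u v
    simp only [LinearMap.sub_apply, LinearMap.smulRight_apply, map_sub, map_smul,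
      LinearMap.smul_apply, smul_eq_mul]
    rw [h z y, h z x]
    ring⟩

variable {W : Type} [AddCommGroup W] [Module K W]

/-- `ρ` is a representation of `so(V, q)`. -/
def IsRp {q : LinearMap.BilinForm K V} (ρ : sk q →ₗ[K] Module.End K W) : Prop :=
  ∀ A B : sk q, ρ (br A B) = ρ A * ρ B - ρ B * ρ A

/-- The basis `b` is orthonormal. -/
def Ortho {n : ℕ} (q : LinearMap.BilinForm K V) (b : Basis (Fin n) K V) : Prop :=
  ∀ i j, q (b i) (b j) = if i = j then 1 else 0

/-- The Casimir operator. -/
noncomputable def cas {n : ℕ} {q : LinearMap.BilinForm K V} (hq : q.IsSymm) (b : Basis (Fin n) K V)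
    (ρ : sk q →ₗ[K] Module.End K W) : Module.End K W :=
  ∑ i, ∑ j, ρ (wedge q hq (b i) (b j)) * ρ (wedge q hq (b i) (b j))

end

/-- WYA: there is an orthonormal basis. -/
def S_WYA : Prop := ∀ (K V : Type) [Field K] [CharZero K] [IsAlgClosed K] [AddCommGroup V]
  [Module K V] [FiniteDimensional K V] (q : LinearMap.BilinForm K V), q.IsSymm → q.Nondegenerate →
  ∃ b : Basis (Fin (finrank K V)) K V, Ortho q b

/-- WYB: the Casimir operator is central. -/
def S_WYB : Prop := ∀ (K V W : Type) [Field K] [AddCommGroup V]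
  [Module K V] [AddCommGroup W] [Module K W] (n : ℕ)
  (q : LinearMap.BilinForm K V) (hq : q.IsSymm) (b : Basis (Fin n) K V), Ortho q b →
  ∀ ρ : sk q →ₗ[K] Module.End K W, IsRp ρ → ∀ A : sk q, Commute (ρ A) (cas hq b ρ)

/-- WYC: if the Casimir operator is nilpotent, then the representation is zero. -/
def S_WYC : Prop := ∀ (K V W : Type) [Field K] [CharZero K] [IsAlgClosed K] [AddCommGroup V]
  [Module K V] [AddCommGroup W] [Module K W] [FiniteDimensional K W] (n : ℕ)
  (q : LinearMap.BilinForm K V) (hq : q.IsSymm) (b : Basis (Fin n) K V), Ortho q b → 3 ≤ n →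
  ∀ ρ : sk q →ₗ[K] Module.End K W, IsRp ρ → IsNilpotent (cas hq b ρ) → ρ = 0

/-- WYD: Weyl's theorem. -/
def S_WYD : Prop := ∀ (K V W : Type) [Field K] [CharZero K] [IsAlgClosed K] [AddCommGroup V]
  [Module K V] [FiniteDimensional K V] [AddCommGroup W] [Module K W] [FiniteDimensional K W]
  (q : LinearMap.BilinForm K V), q.IsSymm → q.Nondegenerate → 3 ≤ finrank K V →
  ∀ ρ : sk q →ₗ[K] Module.End K W, IsRp ρ → ∀ U : Submodule K W,
  (∀ A, ∀ x ∈ U, ρ A x ∈ U) → ∃ U' : Submodule K W, (∀ A, ∀ x ∈ U', ρ A x ∈ U') ∧ IsCompl U U'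

end Pool.Agent.T2h11.WY
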